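import Pool.Agent.H24.RCM.Targets

set_option autoImplicit false

open NumberField Polynomial nonZeroDivisors Pool.Agent.H26.NL Pool.Agent.H24.RCM

namespace Pool.Agent.H20.RCM

/-- the vector of a multiset -/
def vx {G : Type} [DecidableEq G] (H : Finset G) (m : Multiset (Option H)) (t : G) : ℕ :=
  if h : t ∈ H then m.count (some ⟨t, h⟩) else 0

theorem vx_sum {G : Type} [Fintype G] [DecidableEq G] (H : Finset G) (m : Multiset (Option H)) :
    ∑ t, vx H m t + m.count none = Multiset.card m := by
  have h1 : ∑ t, vx H m t = ∑ t : H, m.count (some t) := by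
    rw [← Finset.sum_subset (Finset.subset_univ H)]
    · rw [← Finset.sum_coe_sort H]
      refine Finset.sum_congr rfl fun t _ => ?_
      unfold vx
      rw [dif_pos t.2]
    · intro t _ ht
      unfold vx
      rw [dif_neg ht]
  have h2 : ∑ a : Option H, m.count a = Multiset.card m :=
    Multiset.sum_count_eq_card fun a _ => Finset.mem_univ a
  rw [Fintype.sum_option] at h2
  rw [h1]
  omega

theorem pf_CNT : T_CNT := by
  intro G _ _ H s C _ c hc
  have hcard : Fintype.card (Sym (Option H) s) = (H.card + s).choose s := by
    rw [Sym.card_sym_eq_choose, Fintype.card_option, Fintype.card_coe]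
    congr 1
    omega
  rw [← hcard, ← Nat.card_eq_fintype_card]
  apply Nat.card_le_card_of_injective (fun x : Sym (Option H) s => c (vx H x.1))
  intro x y hxy
  have h0 : ∀ z : Sym (Option H) s, (∀ t, t ∉ H → vx H z.1 t = 0) := by
    intro z t ht
    unfold vx
    rw [dif_neg ht]
  have hs : ∀ z : Sym (Option H) s, ∑ t, vx H z.1 t + z.1.count none = s := by
    intro z
    rw [vx_sum, z.2]
  have h1 : vx H x.1 = vx H y.1 := by
    refine hc _ _ (h0 x) (h0 y) ?_ ?_ hxy
    · have := hs x
      omega
    · have := hs y
      omega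
  apply Subtype.ext
  apply Multiset.ext.2
  intro a
  cases a with
  | none =>
    have h2 := hs x
    have h3 := hs y
    rw [h1] at h2
    omega
  | some t =>
    have h2 := congrFun h1 t.1
    unfold vx at h2
    rw [dif_pos t.2, dif_pos t.2] at h2
    have h3 : (⟨t.1, t.2⟩ : H) = t := rfl
    rw [h3] at h2
    exact h2

end Pool.Agent.H20.RCM
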